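import Pool.Agent.Y171.CE.Stm

/-!
# CE-SPEC: norm of the operator of the walk from return counts and multiplicities
-/

set_option autoImplicit false

namespace Pool.Agent.Y249.CE

open Pool.Agent.Y171.CE

variable {G : Type} [Group G] [Fintype G] [DecidableEq G]

/-- the operator as a linear map of the Euclidean space -/
noncomputable def TH (μ : G → ℝ) : EuclideanSpace ℂ G →ₗ[ℂ] EuclideanSpace ℂ G where
  toFun f := WithLp.toLp 2 (T μ (WithLp.ofLp f))
  map_add' f g := by
    ext x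
    simp only [T, WithLp.ofLp_add, Pi.add_apply, mul_add, Finset.sum_add_distrib, PiLp.add_apply]
  map_smul' c f := by
    ext x
    simp only [T, WithLp.ofLp_smul, Pi.smul_apply, smul_eq_mul, RingHom.id_apply, PiLp.smul_apply,
      Finset.mul_sum]
    apply Finset.sum_congr rfl
    intro s _
    ring

theorem TH_apply (μ : G → ℝ) (f : EuclideanSpace ℂ G) (x : G) :
    TH μ f x = ∑ s : G, (μ s : ℂ) * f (x * s) := rfl

theorem TH_symm (μ : G → ℝ) (hμ : ∀ g, μ g⁻¹ = μ g) : (TH μ).IsSymmetric := by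
  intro f g
  simp only [PiLp.inner_apply, TH_apply, RCLike.inner_apply, map_sum, map_mul,
    Complex.conj_ofReal, Finset.mul_sum, Finset.sum_mul]
  rw [Finset.sum_comm]
  conv_rhs => rw [Finset.sum_comm]
  -- change `s` to its inverse
  rw [← Equiv.sum_comp (Equiv.inv G)]
  apply Finset.sum_congr rfl
  intro s _
  rw [← Equiv.sum_comp (Equiv.mulRight s)]
  apply Finset.sum_congr rfl
  intro x _
  simp only [Equiv.inv_apply, Equiv.coe_mulRight, hμ, mul_inv_cancel_right]
  ring

/-- powers of the operator -/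
theorem TH_pow (μ : G → ℝ) (m : ℕ) : ∀ (f : EuclideanSpace ℂ G) (x : G),
    ((TH μ ^ m) f) x = ∑ s : G, (cpow μ m s : ℂ) * f (x * s) := by
  induction m with
  | zero =>
    intro f x
    rw [pow_zero, Module.End.one_apply, Finset.sum_eq_single 1]
    · simp [cpow]
    · intro b _ hb
      simp [cpow, hb]
    · intro h
      exact absurd (Finset.mem_univ _) h
  | succ m ih =>
    intro f x
    rw [pow_succ, Module.End.mul_apply, ih]
    have h1 : ∀ y : G, cpow μ (m + 1) y = ∑ h : G, cpow μ m h * μ (h⁻¹ * y) := by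
      intro y
      rw [cpow, Function.iterate_succ_apply']
      rfl
    simp only [h1, TH_apply, Complex.ofReal_sum, Complex.ofReal_mul, Finset.mul_sum, Finset.sum_mul]
    conv_rhs => rw [Finset.sum_comm]
    apply Finset.sum_congr rfl
    intro h _
    rw [← Equiv.sum_comp (Equiv.mulLeft h)
      (fun y => (cpow μ m h : ℂ) * (μ (h⁻¹ * y) : ℂ) * f (x * y))]
    apply Finset.sum_congr rfl
    intro y _
    simp only [Equiv.coe_mulLeft, inv_mul_cancel_left, mul_assoc]

theorem sq_norm (f : G → ℂ) : Pool.Agent.Y171.CE.sq f = ‖(WithLp.toLp 2 f : EuclideanSpace ℂ G)‖ ^ 2 := by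
  rw [EuclideanSpace.norm_sq_eq]
  rfl

theorem pow_symm (μ : G → ℝ) (hμ : ∀ g, μ g⁻¹ = μ g) (n : ℕ) : (TH μ ^ n).IsSymmetric :=
  (TH_symm μ hμ).pow n

/-- norm of the power applied to a point mass -/
theorem delta_norm (μ : G → ℝ) (hμ : ∀ g, μ g⁻¹ = μ g) (n : ℕ) (x : G) :
    ‖(TH μ ^ n) (EuclideanSpace.single x (1 : ℂ))‖ ^ 2 = cpow μ (2 * n) 1 := by
  have h1 : inner ℂ ((TH μ ^ n) (EuclideanSpace.single x (1 : ℂ)))
      ((TH μ ^ n) (EuclideanSpace.single x (1 : ℂ))) = (cpow μ (2 * n) 1 : ℂ) := by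
    rw [pow_symm μ hμ n, ← Module.End.mul_apply, ← pow_add, EuclideanSpace.inner_single_left,
      ← two_mul, TH_pow, map_one, one_mul, Finset.sum_eq_single 1]
    · simp
    · intro b _ hb
      have : x * b ≠ x := fun h => hb (by simpa using h)
      simp [this]
    · intro h
      exact absurd (Finset.mem_univ _) h
  have h2 := inner_self_eq_norm_sq_to_K (𝕜 := ℂ) ((TH μ ^ n) (EuclideanSpace.single x (1 : ℂ)))
  rw [h1] at h2
  have h3 : ((cpow μ (2 * n) 1 : ℝ) : ℂ)
      = ((‖(TH μ ^ n) (EuclideanSpace.single x (1 : ℂ))‖ ^ 2 : ℝ) : ℂ) := by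
    rw [h2]
    push_cast
    rfl
  exact (Complex.ofReal_injective h3).symm

/-- an orthonormal family of eigenvectors gives a lower bound of the return counts -/
theorem mult_bound (μ : G → ℝ) (hμ : ∀ g, μ g⁻¹ = μ g) (n d : ℕ) (lam : ℝ)
    (e : Fin d → EuclideanSpace ℂ G) (he : Orthonormal ℂ e)
    (hT : ∀ i, TH μ (e i) = (lam : ℂ) • e i) :
    (d : ℝ) * lam ^ (2 * n) ≤ Fintype.card G * cpow μ (2 * n) 1 := by
  have hTn : ∀ i, (TH μ ^ n) (e i) = ((lam : ℂ) ^ n) • e i := by
    intro i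
    induction n with
    | zero => simp
    | succ n ih =>
      rw [pow_succ', Module.End.mul_apply, ih, map_smul, hT, smul_smul, pow_succ]
  have h1 : ∀ x : G, ∑ i, ‖inner ℂ (e i) ((TH μ ^ n) (EuclideanSpace.single x (1 : ℂ)))‖ ^ 2
      ≤ cpow μ (2 * n) 1 := by
    intro x
    rw [← delta_norm μ hμ n x]
    exact he.sum_inner_products_le _ (s := Finset.univ)
  have h2 : ∀ (x : G) (i : Fin d),
      ‖inner ℂ (e i) ((TH μ ^ n) (EuclideanSpace.single x (1 : ℂ)))‖ ^ 2
        = lam ^ (2 * n) * ‖e i x‖ ^ 2 := by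
    intro x i
    rw [← pow_symm μ hμ n, hTn, inner_smul_left, EuclideanSpace.inner_single_right, norm_mul,
      norm_mul, mul_pow]
    simp only [map_pow, Complex.conj_ofReal, norm_pow, Complex.norm_real, Real.norm_eq_abs,
      norm_one, one_mul, RCLike.norm_conj]
    rw [← pow_mul, mul_comm n 2, pow_mul, sq_abs, ← pow_mul]
  have h3 : ∀ i, ∑ x : G, ‖e i x‖ ^ 2 = 1 := by
    intro i
    rw [← EuclideanSpace.norm_sq_eq, he.norm_eq_one i, one_pow]
  calc (d : ℝ) * lam ^ (2 * n) = ∑ i : Fin d, lam ^ (2 * n) * ∑ x : G, ‖e i x‖ ^ 2 := by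
        simp only [h3, mul_one, Finset.sum_const, Finset.card_univ, Fintype.card_fin, nsmul_eq_mul]
    _ = ∑ x : G, ∑ i : Fin d, lam ^ (2 * n) * ‖e i x‖ ^ 2 := by
        simp only [Finset.mul_sum]
        rw [Finset.sum_comm]
    _ ≤ ∑ _x : G, cpow μ (2 * n) 1 := by
        apply Finset.sum_le_sum
        intro x _
        simp only [← h2]
        exact h1 x
    _ = Fintype.card G * cpow μ (2 * n) 1 := by
        rw [Finset.sum_const, Finset.card_univ, nsmul_eq_mul]

theorem T_transl (μ : G → ℝ) (f : G → ℂ) (g : G) :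
    T μ (fun x => f (g * x)) = fun x => T μ f (g * x) := by
  funext x
  simp only [T, mul_assoc]

theorem spec : S_SPEC := by
  intro G _ _ _ μ hμ V hVT hVg D hD n hn f hf
  by_cases hV : V = ⊥
  · rw [hV, Submodule.mem_bot] at hf
    have h0 : T μ f = 0 := by
      rw [hf]
      funext x
      simp [T]
    have h1 : Pool.Agent.Y171.CE.sq (0 : G → ℂ) = 0 := by
      simp [Pool.Agent.Y171.CE.sq]
    rw [h0, hf, h1, zero_pow (by omega)]
    simp
  -- the space `V` inside the Euclidean space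
  set ι : EuclideanSpace ℂ G ≃ₗ[ℂ] (G → ℂ) := WithLp.linearEquiv 2 ℂ (G → ℂ) with hι
  set VH : Submodule ℂ (EuclideanSpace ℂ G) := V.comap ι.toLinearMap with hVH
  have hmem : ∀ v : EuclideanSpace ℂ G, v ∈ VH ↔ (WithLp.ofLp v : G → ℂ) ∈ V := fun v => Iff.rfl
  have hinv : ∀ v ∈ VH, TH μ v ∈ VH := by
    intro v hv
    exact hVT _ hv
  obtain ⟨TV, hTV⟩ : ∃ TV : VH →ₗ[ℂ] VH, ∀ v : VH, ((TV v : VH) : EuclideanSpace ℂ G) = TH μ v :=
    ⟨(TH μ).restrict hinv, fun v => rfl⟩
  have hsym : LinearMap.IsSymmetric (𝕜 := ℂ) (E := VH) TV := by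
    intro v w
    rw [Submodule.coe_inner, Submodule.coe_inner, hTV, hTV]
    exact TH_symm μ hμ _ _
  have hpos : 0 < Module.finrank ℂ VH := by
    rw [Module.finrank_pos_iff_exists_ne_zero]
    obtain ⟨w, hw, hw0⟩ := (Submodule.ne_bot_iff V).mp hV
    refine ⟨⟨WithLp.toLp 2 w, hw⟩, ?_⟩
    intro h
    apply hw0
    have h1 := congrArg (fun z : VH => (WithLp.ofLp (z : EuclideanSpace ℂ G) : G → ℂ)) h
    simpa using h1
  set b := hsym.eigenvectorBasis rfl with hb
  set ev := hsym.eigenvalues rfl with hev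
  haveI : Nonempty (Fin (Module.finrank ℂ VH)) := ⟨⟨0, hpos⟩⟩
  obtain ⟨i0, hi0⟩ := Finite.exists_max (fun i => ev i ^ 2)
  set lam : ℝ := ev i0 with hlam
  -- upper bound on `V`
  have hup : ∀ v : VH, ‖TV v‖ ^ 2 ≤ lam ^ 2 * ‖v‖ ^ 2 := by
    intro v
    rw [← b.sum_sq_norm_inner_right (TV v), ← b.sum_sq_norm_inner_right v,
      Finset.mul_sum]
    apply Finset.sum_le_sum
    intro i _
    have h1 : inner ℂ (b i) (TV v) = (ev i : ℂ) * inner ℂ (b i) v := by
      rw [← hsym, hb, hsym.apply_eigenvectorBasis, inner_smul_left]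
      simp [hev]
    rw [h1, norm_mul, mul_pow]
    apply mul_le_mul_of_nonneg_right _ (by positivity)
    have h2 : ‖(ev i : ℂ)‖ ^ 2 = ev i ^ 2 := by
      rw [Complex.norm_real, Real.norm_eq_abs, sq_abs]
    rw [h2]
    exact hi0 i
  -- the eigenspace
  set V' : Submodule ℂ (G → ℂ) :=
    { carrier := {v | v ∈ V ∧ T μ v = (lam : ℂ) • v}
      add_mem' := by
        intro a c ha hc
        refine ⟨V.add_mem ha.1 hc.1, ?_⟩
        have : T μ (a + c) = T μ a + T μ c := by
          funext x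
          simp only [T, Pi.add_apply, mul_add, Finset.sum_add_distrib]
        rw [this, ha.2, hc.2, smul_add]
      zero_mem' := by
        refine ⟨V.zero_mem, ?_⟩
        funext x
        simp [T]
      smul_mem' := by
        intro c a ha
        refine ⟨V.smul_mem c ha.1, ?_⟩
        have : T μ (c • a) = c • T μ a := by
          funext x
          simp only [T, Pi.smul_apply, smul_eq_mul, Finset.mul_sum]
          apply Finset.sum_congr rfl
          intro s _
          ring
        rw [this, ha.2, smul_comm] } with hV'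
  have hV'mem : ∀ v, v ∈ V' ↔ v ∈ V ∧ T μ v = (lam : ℂ) • v := fun v => Iff.rfl
  have hV'le : V' ≤ V := fun v hv => hv.1
  have hV'g : ∀ v ∈ V', ∀ g : G, (fun x => v (g * x)) ∈ V' := by
    intro v hv g
    refine ⟨hVg v hv.1 g, ?_⟩
    rw [T_transl, hv.2]
    rfl
  have hV'ne : V' ≠ ⊥ := by
    rw [Submodule.ne_bot_iff]
    refine ⟨WithLp.ofLp (b i0 : EuclideanSpace ℂ G), ⟨(b i0).2, ?_⟩, ?_⟩
    · have h1 := hsym.apply_eigenvectorBasis rfl i0
      have h2 := congrArg (fun z : VH => (WithLp.ofLp (z : EuclideanSpace ℂ G) : G → ℂ)) h1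
      simp only [hTV] at h2
      exact h2
    · intro h0
      have h1 : ‖b i0‖ = 1 := b.norm_eq_one i0
      have h2 : b i0 = 0 := by
        apply Subtype.ext
        have h3 : (b i0 : EuclideanSpace ℂ G) = WithLp.toLp 2 (WithLp.ofLp (b i0 : EuclideanSpace ℂ G)) := rfl
        rw [h3, h0]
        rfl
      rw [h2, norm_zero] at h1
      exact zero_ne_one h1
  have hDle := hD V' hV'le hV'g hV'ne
  -- an orthonormal basis of the eigenspace
  set VH' : Submodule ℂ (EuclideanSpace ℂ G) := V'.comap ι.toLinearMap with hVH'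
  have hfr : Module.finrank ℂ VH' = Module.finrank ℂ V' := by
    have h1 : VH' = V'.map ι.symm.toLinearMap := by
      rw [hVH', Submodule.map_equiv_eq_comap_symm]
      rfl
    rw [h1]
    exact LinearEquiv.finrank_map_eq ι.symm V'
  set c := stdOrthonormalBasis ℂ VH' with hc
  have hbd := mult_bound μ hμ n (Module.finrank ℂ VH') lam (fun i => (c i : EuclideanSpace ℂ G))
    (by
      have h1 := c.orthonormal
      exact h1.comp_linearIsometry VH'.subtypeₗᵢ)
    (by
      intro i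
      have h1 : (WithLp.ofLp (c i : EuclideanSpace ℂ G) : G → ℂ) ∈ V' := (c i).2
      have h2 := h1.2
      ext x
      exact congrFun h2 x)
  rw [hfr] at hbd
  -- conclusion
  have hf' : Pool.Agent.Y171.CE.sq (T μ f) ≤ lam ^ 2 * Pool.Agent.Y171.CE.sq f := by
    have h1 := hup ⟨WithLp.toLp 2 f, hf⟩
    rw [sq_norm, sq_norm]
    rw [Submodule.coe_norm, hTV] at h1
    exact h1
  have hs0 : 0 ≤ Pool.Agent.Y171.CE.sq (T μ f) := by
    rw [sq_norm]
    positivity
  have hs1 : 0 ≤ Pool.Agent.Y171.CE.sq f := by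
    rw [sq_norm]
    positivity
  have hDr : (D : ℝ) ≤ (Module.finrank ℂ V' : ℝ) := by exact_mod_cast hDle
  calc Pool.Agent.Y171.CE.sq (T μ f) ^ n * D
      ≤ (lam ^ 2 * Pool.Agent.Y171.CE.sq f) ^ n * (Module.finrank ℂ V' : ℝ) := by
        gcongr
    _ = ((Module.finrank ℂ V' : ℝ) * lam ^ (2 * n)) * Pool.Agent.Y171.CE.sq f ^ n := by
        rw [mul_pow, ← pow_mul]
        ring
    _ ≤ Fintype.card G * cpow μ (2 * n) 1 * Pool.Agent.Y171.CE.sq f ^ n := by
        gcongr

end Pool.Agent.Y249.CE
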